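import Pool.Agent.Helper61.Cal.Square

/-!
# MP_c4349a_gt: under GCH, either the space exists at `β`, or a Chang-type transfer holds at `β` and
`□_β` fails
-/

set_option autoImplicit false

namespace Pool.Agent.Results.MP_c4349a_gt.CaliberOrTransfer

open Set Cardinal Order

/-- `X` has caliber `κ`: among any `κ` non-empty open sets there are `κ` with a common point. -/
def HasCaliber (X : Type) [TopologicalSpace X] (κ : Cardinal.{0}) : Prop :=
  ∀ (ι : Type), #ι = κ → ∀ U : ι → Set X, (∀ i, IsOpen (U i) ∧ (U i).Nonempty) →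
    ∃ B : Set ι, #B = κ ∧ (⋂ i ∈ B, U i).Nonempty

/-- `X` is c.c.c. -/
def IsCCC (X : Type) [TopologicalSpace X] : Prop :=
  ∀ S : Set (Set X), (∀ U ∈ S, IsOpen U ∧ U.Nonempty) → S.PairwiseDisjoint id → S.Countable

/-- A compact Hausdorff c.c.c. space with caliber `ω⁺` and without caliber `β⁺`. -/
def YesAt (β : Cardinal.{0}) : Prop :=
  ∃ (X : Type) (_ : TopologicalSpace X), CompactSpace X ∧ T2Space X ∧ IsCCC X ∧
    HasCaliber X (aleph 1) ∧ ¬ HasCaliber X (succ β)

/-- Every family of `β⁺` countable sequences in `β` has `ℵ₁` members whose ranges lie in one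
countable subset of `β`. -/
def Transfer (β : Cardinal.{0}) : Prop :=
  ∀ F : (succ β).ord.ToType → ℕ → β.ord.ToType,
    ∃ A : Set (succ β).ord.ToType, #A = aleph 1 ∧ (⋃ ξ ∈ A, range (F ξ)).Countable

/-- `γ` is a limit point of `S`: it is a limit and `S ∩ γ` is unbounded in `γ`. -/
def IsLimPt {W : Type} [LinearOrder W] (S : Set W) (γ : W) : Prop :=
  IsSuccLimit γ ∧ ∀ ξ < γ, ∃ ζ ∈ S, ξ < ζ ∧ ζ < γ

/-- Jensen's square principle `□_β` on the well-order of type `β⁺`: to every limit `α < β⁺` there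
belongs a closed unbounded subset `C α` of `α` of order type at most `β` such that
`C γ = C α ∩ γ` for every limit point `γ < α` of `C α`. -/
def Square (β : Cardinal.{0}) : Prop :=
  ∃ C : (succ β).ord.ToType → Set (succ β).ord.ToType, ∀ α, IsSuccLimit α →
    C α ⊆ Iio α ∧ (∀ ξ < α, ∃ ζ ∈ C α, ξ < ζ) ∧
    (∀ γ < α, IsLimPt (C α) γ → γ ∈ C α ∧ C γ = C α ∩ Iio γ) ∧
    Ordinal.type (fun x y : C α => x < y) ≤ β.ord

/-- Under GCH, for every `β` of cofinality `ω` with `β⁺ > ω₁`: either there is a compact Hausdorff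
c.c.c. space with caliber `ω₁` and without caliber `β⁺`, or the transfer property holds at `β` and
`□_β` fails. -/
theorem result (hGCH : ∀ κ : Cardinal.{0}, ℵ₀ ≤ κ → (2 : Cardinal.{0}) ^ κ = succ κ)
    (β : Cardinal.{0}) (hcof : β.ord.cof = ℵ₀) (hβ : aleph 1 < succ β) :
    YesAt β ∨ (Transfer β ∧ ¬ Square β) := by
  have hβ' := Helper61.Cal.aleph0_lt_of hβ hcof
  by_cases h : Transfer β
  · right
    refine ⟨h, fun hsq => ?_⟩
    obtain ⟨F, hF⟩ := Helper61.Cal.square_refutes hβ' hcof hsq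
    obtain ⟨A, hA, hA'⟩ := h F
    exact hF A hA hA'
  · left
    unfold Transfer at h
    push Not at h
    obtain ⟨F, hF⟩ := h
    obtain ⟨c, hc, hLC⟩ := Helper61.Cal.exists_inj_family hβ' F hF
    obtain ⟨X, tX, h1, h2, h3, h4, h5⟩ := Helper61.Cal.positive hGCH hβ' hcof c hc hLC
    exact ⟨X, tX, h1, h2, h3, h4, h5⟩

end Pool.Agent.Results.MP_c4349a_gt.CaliberOrTransfer
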