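import Pool.Agent.Helper40.Spec.Cof
import Pool.Agent.Helper40.Spec.Meas

/-!
# MP_c4349a_gt: compact spaces with a strictly positive measure and prescribed caliber spectrum
-/

set_option autoImplicit false

namespace Pool.Agent.Results.MP_c4349a_gt.CaliberSpectrum

open Set Cardinal Order MeasureTheory

/-- `X` has caliber `κ`: among any `κ` non-empty open sets there are `κ` with a common point. -/
def HasCaliber (X : Type) [TopologicalSpace X] (κ : Cardinal.{0}) : Prop :=
  ∀ (ι : Type), #ι = κ → ∀ U : ι → Set X, (∀ i, IsOpen (U i) ∧ (U i).Nonempty) →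
    ∃ B : Set ι, #B = κ ∧ (⋂ i ∈ B, U i).Nonempty

/-- `γ` is a limit point of `S`: it is a limit and `S ∩ γ` is unbounded in `γ`. -/
def IsLimPt {W : Type} [LinearOrder W] (S : Set W) (γ : W) : Prop :=
  IsSuccLimit γ ∧ ∀ ξ < γ, ∃ ζ ∈ S, ξ < ζ ∧ ζ < γ

/-- Jensen's square principle `□_β` on the well-order of type `β⁺`: to every limit `α < β⁺` there
belongs a closed unbounded subset `C α` of `α` of order type at most `β` such that
`C γ = C α ∩ γ` for every limit point `γ < α` of `C α`. -/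
def Square (β : Cardinal.{0}) : Prop :=
  ∃ C : (succ β).ord.ToType → Set (succ β).ord.ToType, ∀ α, IsSuccLimit α →
    C α ⊆ Iio α ∧ (∀ ξ < α, ∃ ζ ∈ C α, ξ < ζ) ∧
    (∀ γ < α, IsLimPt (C α) γ → γ ∈ C α ∧ C γ = C α ∩ Iio γ) ∧
    Ordinal.type (fun x y : C α => x < y) ≤ β.ord

/-- Assume GCH. Let `β i`, `i : I`, be a non-empty family of cardinals of cofinality `ω`, and assume
`□_(β i)` for every uncountable `β i`. There is a zero-dimensional compact Hausdorff space with a
regular Borel probability measure which is positive on all non-empty open sets, whose infinite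
calibers are exactly the infinite cardinals `κ` such that `cf κ ≠ ω` and `cf κ ≠ (β i)⁺` for all
`i`. -/
theorem result (hGCH : ∀ κ : Cardinal.{0}, ℵ₀ ≤ κ → (2 : Cardinal.{0}) ^ κ = succ κ)
    (I : Type) [Nonempty I] (β : I → Cardinal.{0}) (hcof : ∀ i, (β i).ord.cof = ℵ₀)
    (hsq : ∀ i, ℵ₀ < β i → Square (β i)) :
    ∃ (X : Type) (_ : TopologicalSpace X) (_ : MeasurableSpace X) (_ : BorelSpace X)
      (μ : Measure X), CompactSpace X ∧ T2Space X ∧ TotallyDisconnectedSpace X ∧
        IsProbabilityMeasure μ ∧ μ.Regular ∧ (∀ U : Set X, IsOpen U → U.Nonempty → 0 < μ U) ∧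
        ∀ κ : Cardinal.{0}, ℵ₀ ≤ κ →
          (HasCaliber X κ ↔ κ.ord.cof ≠ ℵ₀ ∧ ∀ i, κ.ord.cof ≠ succ (β i)) := by
  have hβ : ∀ i, ℵ₀ ≤ β i := by
    intro i
    have h1 := Ordinal.cof_ord_le (β i)
    rwa [hcof i] at h1
  choose T hT hT' using fun i => Helper40.Spec.exists_tr hGCH (hβ i) (hcof i) (hsq i)
  obtain ⟨i₀⟩ := (inferInstance : Nonempty I)
  have hne : Nonempty (succ (β i₀)).ord.ToType := by
    rw [← mk_ne_zero_iff]
    simp
  obtain ⟨ξ₀⟩ := hne
  have hinf : Infinite (Helper40.Spec.sumTr T).XS :=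
    (Helper40.Spec.sumTr T).infinite_XS ⟨i₀, ξ₀⟩
  letI : MeasurableSpace (Helper40.Spec.sumTr T).XS := borel _
  haveI : BorelSpace (Helper40.Spec.sumTr T).XS := ⟨rfl⟩
  obtain ⟨μ, h1, h2, h3⟩ := (Helper40.Spec.sumTr T).exists_measure
  exact ⟨(Helper40.Spec.sumTr T).XS, inferInstance, inferInstance, inferInstance, μ,
    inferInstance, inferInstance, inferInstance, h1, h2, h3,
    fun κ hκ => Helper40.Spec.spectrum hGCH β hβ hcof T hT hT' hinf κ hκ⟩

end Pool.Agent.Results.MP_c4349a_gt.CaliberSpectrum
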