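import Pool.Agent.Helper8.OrdinalCalibersProof

/-!
# MP_c4349a_gt: calibers with prescribed order types

`β` is an uncountable strong limit cardinal of cofinality `ω` (under the generalised continuum
hypothesis: every uncountable cardinal of cofinality `ω`), `X` a space whose cellular families have
size at most `κ < β`. Among any `β⁺` non-empty open subsets of `X`, indexed by the ordinals below
`β⁺`, one finds for every ordinal `ε < β⁺` a centred subfamily whose set of indices has order type
`ε`; if `X` is compact Hausdorff then a subfamily with a common point.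
-/

set_option autoImplicit false

namespace Pool.Agent.Results.MP_c4349a_gt.OrdinalCalibers

open Set Cardinal Order

/-- Every family of pairwise disjoint non-empty open subsets of `X` has at most `κ` members. -/
def CellLe (X : Type) [TopologicalSpace X] (κ : Cardinal.{0}) : Prop :=
  ∀ S : Set (Set X), (∀ u ∈ S, IsOpen u ∧ u.Nonempty) → S.PairwiseDisjoint id → #S ≤ κ

/-- Let `β` be an uncountable cardinal of cofinality `ω`. Assume that `β` is a strong limit or the
generalised continuum hypothesis. Let `κ < β` and let `X` be a space whose families of pairwise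
disjoint non-empty open sets have at most `κ` members. Let `U ξ`, `ξ < β⁺`, be non-empty open
subsets of `X`, and let `ε < β⁺` be an ordinal. Then there is a strictly increasing map `b` from
`ε` to `β⁺` such that the sets `U (b i)`, `i < ε`, are centred, and if `X` is compact Hausdorff then
there is one such that the sets `U (b i)`, `i < ε`, have a common point. -/
theorem result (β κ : Cardinal.{0}) (hβ : ℵ₀ < β) (hcof : β.ord.cof = ℵ₀)
    (hlim : β.IsStrongLimit ∨
      ∀ γ : Cardinal.{0}, ℵ₀ ≤ γ → (2 : Cardinal.{0}) ^ γ = succ γ)
    (hκ : κ < β) (X : Type) [TopologicalSpace X] (hX : CellLe X κ)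
    (U : (succ β).ord.ToType → Set X) (hU : ∀ ξ, IsOpen (U ξ) ∧ (U ξ).Nonempty)
    (ε : Ordinal.{0}) (hε : ε < (succ β).ord) :
    (∃ b : ε.ToType → (succ β).ord.ToType, StrictMono b ∧
      ∀ F : Finset ε.ToType, (⋂ i ∈ F, U (b i)).Nonempty) ∧
    (CompactSpace X → T2Space X → ∃ b : ε.ToType → (succ β).ord.ToType, StrictMono b ∧
      (⋂ i, U (b i)).Nonempty) :=
  Helper8.OrdC.main β κ hβ hcof hlim hκ X hX U hU ε hε

end Pool.Agent.Results.MP_c4349a_gt.OrdinalCalibers
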